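import Pool.Agent.Helper3.AK.Goals1
import Pool.Agent.Helper6.AK.Inv

/-!
# Project AK, goal S_INV of helper3 from goal S_INV of helper6 (translation)
-/

set_option linter.unusedVariables false

namespace Pool.Agent.Helper3.AK

open Equiv

theorem zz_eq {n K : ℕ} (x : Fin K → Alt n) (u : ℕ → Perm (Fin n)) (g : ℕ → Letter K) (t : ℕ) :
    Pool.Agent.Helper6.AK.zz (fun l => (x l : Perm (Fin n))) u (fun t => (g t).1)
      (fun t => !(g t).2) t = zpos x u g t := by
  induction t with
  | zero => rfl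
  | succ t ih =>
    rw [Pool.Agent.Helper6.AK.zz, zpos, ih]
    congr 2
    unfold lett
    rcases h : (g t).2 <;> simp

theorem tl_eq {n K : ℕ} (x : Fin K → Alt n) (u : ℕ → Perm (Fin n)) (g : ℕ → Letter K) (t : ℕ)
    (p : Fin n) :
    Pool.Agent.Helper6.AK.tl (fun l => (x l : Perm (Fin n))) u (fun t => (g t).1)
      (fun t => !(g t).2) t p = tail x u g t p := by
  unfold Pool.Agent.Helper6.AK.tl tail
  rw [zz_eq, zz_eq]
  rcases h : (g t).2 <;> simp [h]

theorem multi_iff {n K r : ℕ} (x : Fin K → Alt n) (u : ℕ → Perm (Fin n)) (g : ℕ → Letter K)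
    (T : ℕ) (c : Pts n r) (p : Fin r × Bool) (t : ℕ) :
    Pool.Agent.Helper6.AK.Multi T c (fun l => (x l : Perm (Fin n))) u (fun t => (g t).1)
      (fun t => !(g t).2) p t ↔ ¬ Single x u g T c t p := by
  unfold Pool.Agent.Helper6.AK.Multi Single
  simp only [tl_eq]
  push Not
  constructor
  · rintro ⟨q, t', h1, h2, h3, h4⟩
    refine ⟨t', h1, q, ?_, h3, h4⟩
    intro h
    exact h2 (Prod.ext (congrArg Prod.snd h) (congrArg Prod.fst h))
  · rintro ⟨t', h1, q, h2, h3, h4⟩
    refine ⟨q, t', h1, ?_, h3, h4⟩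
    intro h
    exact h2 (Prod.ext (congrArg Prod.snd h) (congrArg Prod.fst h))

theorem mev_iff {n K r : ℕ} (x : Fin K → Alt n) (u : ℕ → Perm (Fin n)) (g : ℕ → Letter K)
    (T : ℕ) (c : Pts n r) :
    Pool.Agent.Helper6.AK.MM T c (fun l => (x l : Perm (Fin n))) u (fun t => (g t).1)
      (fun t => !(g t).2) ↔ Mev x u g T c := by
  unfold Pool.Agent.Helper6.AK.MM Mev
  simp only [multi_iff, Bool.exists_bool]
  exact ⟨fun h t ht i => h i t ht, fun h i t ht => h t ht i⟩

/-- **INV** from the statement of helper6 -/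
theorem inv (h : Pool.Agent.Helper6.AK.S_INV) : S_INV := by
  intro n r K T hT c u g
  have := @h n K r T hT c c.injective u (fun t => (g t).1) (fun t => !(g t).2)
  simp only [zz_eq, mev_iff] at this
  exact this

end Pool.Agent.Helper3.AK
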