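import Pool.Agent.Helper6.AK.DGoals

/-! CEC: the density of the class `EcS`. -/

namespace Pool.Agent.Helper73.AK

open Equiv Pool.Agent.Helper15.An Pool.Agent.Helper6.AK

theorem two_le_sum {m : Multiset ℕ} {a b : ℕ} (ha : a ∈ m) (hb : b ∈ m) (hab : b ≠ a) :
    a + b ≤ m.sum := by
  obtain ⟨t, rfl⟩ := Multiset.exists_cons_of_mem ha
  have h1 : b ∈ t := by
    rcases Multiset.mem_cons.1 hb with h | h
    · exact absurd h hab
    · exact h
  rw [Multiset.sum_cons]
  have := Multiset.le_sum_of_mem h1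
  omega

theorem three_le_sum {m : Multiset ℕ} {a b c : ℕ} (ha : a ∈ m) (hb : b ∈ m) (hc : c ∈ m)
    (hab : b ≠ a) (hac : c ≠ a) (hbc : c ≠ b) : a + b + c ≤ m.sum := by
  obtain ⟨t, rfl⟩ := Multiset.exists_cons_of_mem ha
  have h1 : b ∈ t := by
    rcases Multiset.mem_cons.1 hb with h | h
    · exact absurd h hab
    · exact h
  have h2 : c ∈ t := by
    rcases Multiset.mem_cons.1 hc with h | h
    · exact absurd h hac
    · exact h
  rw [Multiset.sum_cons]
  have := two_le_sum h1 h2 hbc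
  omega

/-- the possible second lengths -/
def setS (n R : ℕ) : Finset ℕ := (Finset.Icc (R / 2 + 1) (R - 2)).filter fun s => ¬ s ∣ n - R

/-- the possible complements of the first length -/
def setR (S : ℕ) : Finset ℕ := Finset.Icc ((S + 1) / 2) S

theorem card_setR (S : ℕ) : S ≤ 2 * (setR S).card := by
  unfold setR
  rw [Nat.card_Icc]
  omega

theorem mem_setR {S R : ℕ} : R ∈ setR S ↔ S ≤ 2 * R ∧ R ≤ S := by
  unfold setR
  rw [Finset.mem_Icc]
  omega

theorem mem_setS {n R s : ℕ} (hR : 2 ≤ R) :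
    s ∈ setS n R ↔ (R < 2 * s ∧ s + 2 ≤ R) ∧ ¬ s ∣ n - R := by
  unfold setS
  rw [Finset.mem_filter, Finset.mem_Icc]
  constructor
  · rintro ⟨h1, h2⟩
    exact ⟨by omega, h2⟩
  · rintro ⟨h1, h2⟩
    exact ⟨by omega, h2⟩

theorem card_div {n R : ℕ} (hR : 0 < R) (hn : R < n) :
    ((Finset.Icc (R / 2 + 1) (R - 2)).filter fun s => s ∣ n - R).card * R ≤ 2 * n := by
  have h1 : ((Finset.Icc (R / 2 + 1) (R - 2)).filter fun s => s ∣ n - R).card ≤
      (Finset.Icc 1 (2 * (n - R) / R)).card := by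
    refine Finset.card_le_card_of_injOn (fun s => (n - R) / s) ?_ ?_
    · intro s hs
      rw [Finset.mem_coe, Finset.mem_filter, Finset.mem_Icc] at hs
      obtain ⟨⟨h1, h2⟩, h3⟩ := hs
      rw [Finset.mem_coe, Finset.mem_Icc]
      have h4 : 0 < s := by omega
      have h5 : (n - R) / s * s = n - R := Nat.div_mul_cancel h3
      constructor
      · exact Nat.div_pos (Nat.le_of_dvd (by omega) h3) h4
      · rw [Nat.le_div_iff_mul_le hR]
        calc (n - R) / s * R ≤ (n - R) / s * (2 * s) := Nat.mul_le_mul_left _ (by omega)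
          _ = 2 * ((n - R) / s * s) := by ring
          _ = 2 * (n - R) := by rw [h5]
    · intro s hs s' hs' he
      rw [Finset.mem_coe, Finset.mem_filter, Finset.mem_Icc] at hs hs'
      have h0 : n - R ≠ 0 := by omega
      have e1 := Nat.div_div_self hs.2 h0
      have e2 := Nat.div_div_self hs'.2 h0
      simp only at he
      rw [← e1, ← e2, he]
  rw [Nat.card_Icc] at h1
  calc _ ≤ (2 * (n - R) / R + 1 - 1) * R := Nat.mul_le_mul_right _ h1
    _ = 2 * (n - R) / R * R := by rw [Nat.add_sub_cancel]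
    _ ≤ 2 * (n - R) := Nat.div_mul_le_self _ _
    _ ≤ 2 * n := by omega

theorem card_setS {n S R : ℕ} (h1 : 64 ≤ S) (h2 : 64 * n ≤ S ^ 2) (h3 : 4 * S ≤ n)
    (hR : R ∈ setR S) : R ≤ 4 * (setS n R).card := by
  obtain ⟨hR1, hR2⟩ := mem_setR.1 hR
  have hd := card_div (n := n) (R := R) (by omega) (by omega)
  have hsum : (setS n R).card + ((Finset.Icc (R / 2 + 1) (R - 2)).filter
      fun s => s ∣ n - R).card = R - 2 - R / 2 := by
    have h4 := Finset.card_filter_add_card_filter_not (s := Finset.Icc (R / 2 + 1) (R - 2))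
      (fun s => s ∣ n - R)
    rw [Nat.card_Icc] at h4
    unfold setS
    omega
  set D := ((Finset.Icc (R / 2 + 1) (R - 2)).filter fun s => s ∣ n - R).card with hD
  have h5 : 16 * D ≤ S := by
    have h6 : D * S ≤ 4 * n := by
      calc D * S ≤ D * (2 * R) := Nat.mul_le_mul_left _ hR1
        _ = 2 * (D * R) := by ring
        _ ≤ 2 * (2 * n) := Nat.mul_le_mul_left _ hd
        _ = 4 * n := by ring
    have h7 : 16 * D * S ≤ S * S := by
      calc 16 * D * S = 16 * (D * S) := by ring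
        _ ≤ 16 * (4 * n) := Nat.mul_le_mul_left _ h6
        _ = 64 * n := by ring
        _ ≤ S ^ 2 := h2
        _ = S * S := sq S
    exact Nat.le_of_mul_le_mul_right h7 (by omega)
  omega

theorem thm (hcms : Pool.Agent.Helper6.AK.S_CMS) : Pool.Agent.Helper6.AK.S_CEC := by
  classical
  intro n S h1 h2 h3
  let P : Finset (Σ _ : ℕ, ℕ) := (setR S).sigma fun R => setS n R
  let f : (Σ _ : ℕ, ℕ) → Finset (Alt n) := fun p => CycMS n (n - p.1) p.2
  have hP : ∀ p ∈ P, (S ≤ 2 * p.1 ∧ p.1 ≤ S) ∧ (p.1 < 2 * p.2 ∧ p.2 + 2 ≤ p.1) ∧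
      ¬ p.2 ∣ n - p.1 := by
    intro p hp
    obtain ⟨h4, h5⟩ := Finset.mem_sigma.1 hp
    have h6 := mem_setR.1 h4
    exact ⟨h6, (mem_setS (by omega)).1 h5⟩
  have hf : ∀ p u, u ∈ f p ↔ n - p.1 ∈ (u : Perm (Fin n)).cycleType ∧
      p.2 ∈ (u : Perm (Fin n)).cycleType := by
    intro p u
    simp only [f, CycMS, Finset.mem_filter, Finset.mem_univ, true_and]
  have hle : ∀ u : Perm (Fin n), u.cycleType.sum ≤ n := by
    intro u
    rw [Perm.sum_cycleType]
    exact (Finset.card_le_univ _).trans (by simp)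
  have hdis : (P : Set (Σ _ : ℕ, ℕ)).PairwiseDisjoint f := by
    intro p hp q hq hne
    rw [Function.onFun, Finset.disjoint_left]
    intro u hu hu'
    obtain ⟨a1, a2⟩ := (hf p u).1 hu
    obtain ⟨b1, b2⟩ := (hf q u).1 hu'
    obtain ⟨⟨c1, c2⟩, ⟨c3, c4⟩, -⟩ := hP p hp
    obtain ⟨⟨d1, d2⟩, ⟨d3, d4⟩, -⟩ := hP q hq
    have h4 := hle u
    apply hne
    obtain ⟨R, s⟩ := p
    obtain ⟨R', s'⟩ := q
    simp only at a1 a2 b1 b2 c1 c2 c3 c4 d1 d2 d3 d4
    have h5 : R = R' := by
      by_contra h5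
      have h6 := two_le_sum a1 b1 (by omega)
      omega
    subst h5
    have h6 : s = s' := by
      by_contra h6
      have h7 := three_le_sum a1 a2 b2 (by omega) (by omega) (by omega)
      omega
    subst h6
    rfl
  have hsub : P.biUnion f ⊆ EcS n S := by
    intro u hu
    obtain ⟨p, hp, hup⟩ := Finset.mem_biUnion.1 hu
    obtain ⟨a1, a2⟩ := (hf p u).1 hup
    obtain ⟨⟨c1, c2⟩, ⟨c3, c4⟩, c5⟩ := hP p hp
    simp only [EcS, Finset.mem_filter, Finset.mem_univ, true_and]
    exact ⟨n - p.1, p.2, by omega, by omega, by omega, by omega, c5, a1, a2⟩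
  have hcard : ∑ R ∈ setR S, ∑ s ∈ setS n R, (CycMS n (n - R) s).card ≤ (EcS n S).card := by
    have h4 := Finset.card_le_card hsub
    rw [Finset.card_biUnion hdis] at h4
    refine le_trans (le_of_eq ?_) h4
    exact (Finset.sum_sigma (setR S) (fun R => setS n R) (fun p => (f p).card)).symm
  have hone : ∀ R ∈ setR S, Fintype.card (Alt n) ≤
      4 * n * ∑ s ∈ setS n R, (CycMS n (n - R) s).card := by
    intro R hR
    obtain ⟨hR1, hR2⟩ := mem_setR.1 hR
    have h4 : (setS n R).card * Fintype.card (Alt n) ≤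
        n * R * ∑ s ∈ setS n R, (CycMS n (n - R) s).card := by
      rw [Finset.mul_sum, ← smul_eq_mul, ← Finset.sum_const]
      refine Finset.sum_le_sum fun s hs => ?_
      obtain ⟨⟨c3, c4⟩, -⟩ := (mem_setS (by omega)).1 hs
      have h5 := hcms (n := n) (M := n - R) (s := s) (by omega) (by omega) (by omega) (by omega)
      rw [← h5, mul_comm]
      exact Nat.mul_le_mul_right _ (Nat.mul_le_mul (by omega) (by omega))
    have h5 := card_setS h1 h2 h3 hR
    have h6 : R * Fintype.card (Alt n) ≤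
        R * (4 * n * ∑ s ∈ setS n R, (CycMS n (n - R) s).card) := by
      calc R * Fintype.card (Alt n) ≤ 4 * (setS n R).card * Fintype.card (Alt n) :=
            Nat.mul_le_mul_right _ h5
        _ = 4 * ((setS n R).card * Fintype.card (Alt n)) := by ring
        _ ≤ 4 * (n * R * ∑ s ∈ setS n R, (CycMS n (n - R) s).card) := Nat.mul_le_mul_left _ h4
        _ = _ := by ring
    exact Nat.le_of_mul_le_mul_left h6 (by omega)
  calc S * Fintype.card (Alt n) ≤ 2 * (setR S).card * Fintype.card (Alt n) :=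
        Nat.mul_le_mul_right _ (card_setR S)
    _ = 2 * ∑ R ∈ setR S, Fintype.card (Alt n) := by
        rw [Finset.sum_const, smul_eq_mul]
        ring
    _ ≤ 2 * ∑ R ∈ setR S, 4 * n * ∑ s ∈ setS n R, (CycMS n (n - R) s).card :=
        Nat.mul_le_mul_left _ (Finset.sum_le_sum hone)
    _ = 8 * n * ∑ R ∈ setR S, ∑ s ∈ setS n R, (CycMS n (n - R) s).card := by
        rw [← Finset.mul_sum]
        ring
    _ ≤ 8 * n * (EcS n S).card := Nat.mul_le_mul_left _ hcard

end Pool.Agent.Helper73.AK
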