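import Pool.Agent.Helper6.AK.DGoals
import Pool.Agent.Helper6.W.Ingredients

/-! FIN: all elements are short products of conjugates of `c`. -/

namespace Pool.Agent.Helper73.AK.Fin

open Equiv Pool.Agent.Helper15.An Pool.Agent.Helper6.AK Pool.Agent.Helper6.FixK
  Pool.Agent.Helper6.T5 Pool.Agent.Helper6.W

theorem thm (hconj : Pool.Agent.Helper6.AK.S_CONJ) (htt : Pool.Agent.Helper6.AK.S_TT)
    (hcyc : Pool.Agent.Helper6.AK.S_CYC) : Pool.Agent.Helper6.AK.S_FIN := by
  intro n k hk x m t ℓ ε hε hm hmn hgap ht c hc hℓ g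
  -- conjugates
  have h1 : ∀ σ : Perm (Fin n), Reach (fun i => (x i : Perm (Fin n))) (ℓ + 4 * t)
      (σ * c * σ⁻¹) := fun σ => hconj hk x hε hgap ht c hc hℓ σ
  -- products of two cycles
  have h2 : ∀ C₁ C₂ : Perm (Fin n), C₁.IsCycle → C₂.IsCycle → C₁.support.card = m / 3 →
      C₂.support.card = m / 3 → C₁.Disjoint C₂ →
      Reach (fun i => (x i : Perm (Fin n))) (2 * (ℓ + 4 * t)) (C₁ * C₂) :=
    fun C₁ C₂ a b a' b' d => htt x (t := m / 3) c (by omega) (by omega) h1 C₁ C₂ a b a' b' d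
  -- cycles
  have h3 : ∀ C : Perm (Fin n), C.IsCycle → C.support.card + 1 = 2 * (m / 3) →
      Reach (fun i => (x i : Perm (Fin n))) (2 * (2 * (ℓ + 4 * t))) C :=
    fun C a b => hcyc x (t := m / 3) (by omega) (by omega) h2 C a b
  obtain ⟨l, hl1, hl2, hl3⟩ := sort_log (n := n) (t := m / 3 - 1) (by omega) (by omega)
    (g : Perm (Fin n)) (Perm.mem_alternatingGroup.1 g.2)
  have h4 : Reach (fun i => (x i : Perm (Fin n))) (l.length * (2 * (2 * (ℓ + 4 * t))))
      (g : Perm (Fin n)) := by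
    rw [← hl1]
    exact Reach.list_prod l fun C hC => h3 C (hl3 C hC).1 (by
      have := (hl3 C hC).2
      omega)
  refine ⟨l.length * (2 * (2 * (ℓ + 4 * t))), ?_, ?_⟩
  · calc (m / 3 - 1) * (l.length * (2 * (2 * (ℓ + 4 * t)))) =
        ((m / 3 - 1) * l.length) * (4 * (ℓ + 4 * t)) := by ring
      _ ≤ (n + 40 * (m / 3 - 1) * (Nat.log 2 n + 1)) * (4 * (ℓ + 4 * t)) :=
        Nat.mul_le_mul_right _ hl2
  · obtain ⟨L, hL, hLg⟩ := h4
    refine ⟨L, hL, ?_⟩
    apply Subtype.ext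
    rw [← hLg]
    have : ∀ L : List (Fin k × Bool), (((L.map fun p => if p.2 then x p.1 else (x p.1)⁻¹).prod :
        Alt n) : Perm (Fin n)) = (L.map fun p => if p.2 then (x p.1 : Perm (Fin n))
          else (x p.1 : Perm (Fin n))⁻¹).prod := by
      intro L
      induction L with
      | nil => rfl
      | cons a L ih =>
        rw [List.map_cons, List.map_cons, List.prod_cons, List.prod_cons]
        change ((if a.2 then x a.1 else (x a.1)⁻¹ : Alt n) : Perm (Fin n)) * _ = _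
        rw [ih]
        split_ifs <;> rfl
    exact this L

end Pool.Agent.Helper73.AK.Fin
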